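import Pool.Agent.Helper31.TW.St1
import Pool.Agent.Helper15.TS.PINV
import Pool.Agent.Helper16.TS.PPMP

/-!
# Project TW, module STR: slices by three vectors
-/

set_option autoImplicit false

namespace Pool.Agent.Helper80.TW

open Pool.Agent.Helper31.TW
open Pool.Agent.Helper22.FL Pool.Agent.Helper22.CS Pool.Agent.Helper15.TS Pool.Agent.Helper16.TS

theorem hSTR (hPKH : StPKH) : StSTR := by
  intro n S hT c q hq
  set h : Fin 3 → List (Fin n) := fun j => wd (q j) with hh
  have hne : ∀ a, h a ≠ [] := fun a => wd_ne_nil (hq a)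
  have hcf := stinv (Fin 3) (Fin n) _ h (wd c) hne (hT (wd c) (h 0) (h 1) (h 2) (hne 0) (hne 1) (hne 2))
  have hcf2 := isContextFree_inter hcf (patRuns (id : Fin (2 + 1) → Fin 3)) 0 (Fin.last 2)
  have hpar : ∀ w : List (Fin 3), parikh (wd c ++ w.flatMap h) = c + ∑ j, w.count j • q j := by
    intro w
    rw [parikh_append, parikh_wd, parikh_flatMap]
    simp only [hh, parikh_wd]
  obtain ⟨R, hR1, hR2⟩ := hPKH 3 _ hcf2
  refine ⟨R, ?_, ?_⟩
  · intro r hr p hp
    obtain ⟨u, v, x, y, z, hpe, hpump⟩ := hR1 r hr p hp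
    have hs := (patRuns_iff.1 (hpump 2).2)
    rw [mem_blocks_iff] at hs
    obtain ⟨ps, hps, hps2⟩ := hs
    rw [List.map_id] at hps2
    rw [← hps2] at hps
    have e2 : ∀ s : List (Fin 3), (List.replicate 2 s).flatten = s ++ s := by
      intro s
      simp [List.replicate]
    rw [e2, e2] at hps
    rw [List.pairwise_append, List.pairwise_append, List.pairwise_append, List.pairwise_append] at hps
    have hv : (v ++ v).Pairwise (· ≤ ·) := hps.1.1.1.2.1
    have hy : (y ++ y).Pairwise (· ≤ ·) := hps.1.2.1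
    by_contra hcon
    push Not at hcon
    have hmem : ∀ j : Fin 3, j ∈ v ∨ j ∈ y := by
      intro j
      by_contra hc
      rw [not_or] at hc
      apply hcon j
      rw [hpe]
      show v.count j + y.count j = 0
      rw [List.count_eq_zero.2 hc.1, List.count_eq_zero.2 hc.2]
    have d01 : (0 : Fin 3) ≠ 1 := by decide
    have d02 : (0 : Fin 3) ≠ 2 := by decide
    have d12 : (1 : Fin 3) ≠ 2 := by decide
    rcases hmem 0 with a0 | a0 <;> rcases hmem 1 with a1 | a1 <;> rcases hmem 2 with a2 | a2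
    · exact d01 (eq_of_sq hv a0 a1)
    · exact d01 (eq_of_sq hv a0 a1)
    · exact d02 (eq_of_sq hv a0 a2)
    · exact d12 (eq_of_sq hy a1 a2)
    · exact d12 (eq_of_sq hv a1 a2)
    · exact d02 (eq_of_sq hy a0 a2)
    · exact d01 (eq_of_sq hy a0 a1)
    · exact d01 (eq_of_sq hy a0 a1)
  · intro k
    rw [← hR2 k]
    constructor
    · intro hk
      refine ⟨tw k, ⟨⟨?_, ?_⟩, ?_⟩, ?_⟩
      · show parikh (wd c ++ (tw k).flatMap h) ∈ S
        rw [hpar]
        simp only [count_tw]
        exact hk
      · refine ⟨k, ?_⟩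
        rw [flatMap_tw]
        simp only [List.append_assoc]
      · rw [patRuns_iff]
        exact ⟨k, tw_eq k⟩
      · funext j
        exact count_tw k j
    · rintro ⟨w, hw, hwk⟩
      have h5 : parikh (wd c ++ w.flatMap h) ∈ S := hw.1.1
      rw [hpar] at h5
      have h6 : ∀ j, w.count j = k j := fun j => congrFun hwk j
      simp only [h6] at h5
      exact h5

end Pool.Agent.Helper80.TW
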